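import Pool.Agent.Lib.helper10.NPOcc

namespace Pool.Agent.Results.MP_636301_lc.NPHard

open Pool.Agent.Cx

/-- in the multigraph with edge list `E`, the vertices `v 0, ..., v ℓ` and the edges number
`e 0, ..., e (ℓ-1)` form an `(X,Y)`-path of length `ℓ` -/
def IsPath {α : Type} (E : List (α × α)) (X Y : List α) (ℓ : ℕ) (v : ℕ → α) (e : ℕ → ℕ) : Prop :=
  (∀ i ≤ ℓ, ∀ j ≤ ℓ, v i = v j → i = j) ∧
  (∀ i < ℓ, E[e i]? = some (v i, v (i + 1)) ∨ E[e i]? = some (v (i + 1), v i)) ∧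
  v 0 ∈ X ∧ v ℓ ∈ Y ∧ ∀ i, 0 < i → i < ℓ → v i ∉ X ∧ v i ∉ Y

/-- there are `k` different, pairwise internally disjoint `(X,Y)`-paths of odd length -/
def Internal {α : Type} (E : List (α × α)) (k : ℕ) (X Y : List α) : Prop :=
  ∃ (ℓ : ℕ → ℕ) (v : ℕ → ℕ → α) (e : ℕ → ℕ → ℕ),
    (∀ p < k, Odd (ℓ p) ∧ IsPath E X Y (ℓ p) (v p) (e p)) ∧ ∀ p < k, ∀ q < k, p ≠ q →
      (Finset.range (ℓ p)).image (e p) ≠ (Finset.range (ℓ q)).image (e q) ∧
      ∀ i j, 0 < i → i < ℓ p → 0 < j → j < ℓ q → v p i ≠ v q j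

/-- there are `k` pairwise vertex-disjoint `(X,Y)`-paths of odd length -/
def Full {α : Type} (E : List (α × α)) (k : ℕ) (X Y : List α) : Prop :=
  ∃ (ℓ : ℕ → ℕ) (v : ℕ → ℕ → α) (e : ℕ → ℕ → ℕ),
    (∀ p < k, Odd (ℓ p) ∧ IsPath E X Y (ℓ p) (v p) (e p)) ∧ ∀ p < k, ∀ q < k, p ≠ q →
      ∀ i ≤ ℓ p, ∀ j ≤ ℓ q, v p i ≠ v q j

/-- vertex list, edge list, `k`, `X`, `Y` -/
abbrev Inst := List ℕ × List (ℕ × ℕ) × ℕ × List ℕ × List ℕ

/-- a multigraph, a positive integer `k` and two `k`-element sets of vertices -/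
def WF (I : Inst) : Prop :=
  I.1.Nodup ∧ (∀ e ∈ I.2.1, e.1 ∈ I.1 ∧ e.2 ∈ I.1) ∧ 1 ≤ I.2.2.1 ∧
  I.2.2.2.1.Nodup ∧ I.2.2.2.1.length = I.2.2.1 ∧ (∀ x ∈ I.2.2.2.1, x ∈ I.1) ∧
  I.2.2.2.2.Nodup ∧ I.2.2.2.2.length = I.2.2.1 ∧ (∀ x ∈ I.2.2.2.2, x ∈ I.1)

def OddPaths (I : Inst) : Prop := WF I ∧ Internal I.2.1 I.2.2.1 I.2.2.2.1 I.2.2.2.2

def OddPathsFull (I : Inst) : Prop := WF I ∧ Full I.2.1 I.2.2.1 I.2.2.2.1 I.2.2.2.2

/-! ### general facts -/

section general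
variable {α β : Type} {E : List (α × α)} {X Y : List α} {k : ℕ}

lemma IsPath.map {ℓ : ℕ} {v : ℕ → α} {e : ℕ → ℕ} (h : IsPath E X Y ℓ v e) {f : α → β}
    (hf : f.Injective) :
    IsPath (E.map (Prod.map f f)) (X.map f) (Y.map f) ℓ (fun i => f (v i)) e := by
  obtain ⟨h1, h2, h3, h4, h5⟩ := h
  refine ⟨fun i hi j hj e => h1 i hi j hj (hf e), fun i hi => ?_, List.mem_map_of_mem h3,
    List.mem_map_of_mem h4, fun i a b => ?_⟩
  · rcases h2 i hi with h | h <;> simp [h]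
  · simpa only [List.mem_map_of_injective hf] using h5 i a b

lemma Internal.map (h : Internal E k X Y) {f : α → β} (hf : f.Injective) :
    Internal (E.map (Prod.map f f)) k (X.map f) (Y.map f) :=
  let ⟨ℓ, v, e, h1, h2⟩ := h
  ⟨ℓ, fun p i => f (v p i), e, fun p hp => ⟨(h1 p hp).1, (h1 p hp).2.map hf⟩,
    fun p hp q hq n => ⟨(h2 p hp q hq n).1, fun i j a b c d e =>
      (h2 p hp q hq n).2 i j a b c d (hf e)⟩⟩

lemma Full.map (h : Full E k X Y) {f : α → β} (hf : f.Injective) :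
    Full (E.map (Prod.map f f)) k (X.map f) (Y.map f) :=
  let ⟨ℓ, v, e, h1, h2⟩ := h
  ⟨ℓ, fun p i => f (v p i), e, fun p hp => ⟨(h1 p hp).1, (h1 p hp).2.map hf⟩,
    fun p hp q hq n i a j b e => h2 p hp q hq n i a j b (hf e)⟩

lemma Full.internal (h : Full E k X Y) : Internal E k X Y := by
  obtain ⟨ℓ, v, e, h1, h2⟩ := h
  refine ⟨ℓ, v, e, h1, fun p hp q hq n => ⟨fun h => ?_, fun i j a b c d =>
    h2 p hp q hq n i b.le j d.le⟩⟩
  have h0 := (h1 p hp).1.pos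
  have : e p 0 ∈ (Finset.range (ℓ q)).image (e q) :=
    h ▸ Finset.mem_image_of_mem _ (by simpa using h0)
  obtain ⟨j, hj, e'⟩ := Finset.mem_image.1 this
  simp only [Finset.mem_range] at hj
  have a := (h1 p hp).2.2.1 0 h0
  have b := (h1 q hq).2.2.1 j hj
  have c := h2 p hp q hq n 0 (by omega) j hj.le
  have d := h2 p hp q hq n 0 (by omega) (j + 1) hj
  rw [e'] at b
  rcases a with a | a <;> rcases b with b | b <;> rw [a] at b <;> simp at b <;> tauto

lemma full_intro (ℓ : ℕ → ℕ) (v : ℕ → ℕ → α)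
    (h1 : ∀ p < k, ℓ p % 2 = 1 ∧ v p 0 ∈ X ∧ v p (ℓ p) ∈ Y ∧
      (∀ i < ℓ p, (v p i, v p (i + 1)) ∈ E ∨ (v p (i + 1), v p i) ∈ E) ∧
      ∀ i, 0 < i → i < ℓ p → v p i ∉ X ∧ v p i ∉ Y)
    (h2 : ∀ p < k, ∀ q < k, ∀ i ≤ ℓ p, ∀ j ≤ ℓ q, v p i = v q j → p = q ∧ i = j) :
    Full E k X Y := by
  have : ∀ p i, ∃ e : ℕ, p < k → i < ℓ p →
      E[e]? = some (v p i, v p (i + 1)) ∨ E[e]? = some (v p (i + 1), v p i) := by
    intro p i
    by_cases h : p < k ∧ i < ℓ p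
    · rcases (h1 p h.1).2.2.2.1 i h.2 with a | a <;> obtain ⟨e, he⟩ := List.getElem?_of_mem a
      · exact ⟨e, fun _ _ => Or.inl he⟩
      · exact ⟨e, fun _ _ => Or.inr he⟩
    · exact ⟨0, fun a b => absurd ⟨a, b⟩ h⟩
  choose e he using this
  exact ⟨ℓ, v, e, fun p hp => ⟨Nat.odd_iff.2 (h1 p hp).1, fun i hi j hj e => (h2 p hp p hp i hi j hj e).2,
    fun i => he p i hp, (h1 p hp).2.1, (h1 p hp).2.2.1, (h1 p hp).2.2.2.2⟩,
    fun p hp q hq n i hi j hj e => n (h2 p hp q hq i hi j hj e).1⟩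

lemma surj [DecidableEq α] (hX : X.length = k) (f : ℕ → α) (h1 : ∀ p < k, f p ∈ X)
    (h2 : ∀ p < k, ∀ q < k, f p = f q → p = q) : ∀ x ∈ X, ∃ p < k, f p = x := by
  intro x hx
  have := Finset.surjOn_of_injOn_of_card_le (s := Finset.range k) (t := X.toFinset) f
    (fun p hp => by simpa using h1 p (by simpa using hp))
    (fun p hp q hq => h2 p (by simpa using hp) q (by simpa using hq))
    (by simpa [hX] using List.toFinset_card_le X)
  simpa using this (by simpa using hx)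

end general

/-! ### the reduction -/

abbrev Pt := ℕ × ℕ × ℕ

def Edge (O : Occ) (m n : ℕ) (x y : Pt) : Prop :=
  (x.1 = 2 ∧ x.2.2 = 0 ∧ y.2.1 = x.2.1 ∧ y.2.2 = 0 ∧
    ((y.1 ≤ 1 ∧ x.2.1 < n) ∨ (y.1 = 0 ∧ x.2.1 = n))) ∨
  (x.1 = 2 ∧ x.2.2 = 0 ∧ y.1 ≤ 1 ∧ y.2.1 < n ∧ x.2.1 = y.2.1 + 1 ∧ y.2.2 = 2 * O.length) ∨
  (x.1 ≤ 1 ∧ x.2.1 < n ∧ x.2.2 % 2 = 1 ∧ x.2.2 < 2 * O.length ∧ y.1 = x.1 ∧ y.2.1 = x.2.1 ∧
    (y.2.2 + 1 = x.2.2 ∨ y.2.2 = x.2.2 + 1)) ∨
  (x.1 = 3 ∧ x.2.1 < m ∧ x.2.2 = 0 ∧ y.1 = 5 ∧ y.2.1 = x.2.1 ∧ y.2.2 = 0) ∨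
  (x.1 = 3 ∧ x.2.1 < m ∧ x.2.2 = 0 ∧ y.1 ≤ 1 ∧ y.2.1 < n ∧ y.2.2 % 2 = 0 ∧ y.2.2 < 2 * O.length ∧
    cl O (y.2.2 / 2) = x.2.1 ∧ vr O (y.2.2 / 2) = y.2.1 ∧ sg O (y.2.2 / 2) = y.1) ∨
  (y.1 = 4 ∧ y.2.1 < m ∧ y.2.2 = 0 ∧ x.1 ≤ 1 ∧ x.2.1 < n ∧ x.2.2 % 2 = 1 ∧ x.2.2 < 2 * O.length ∧
    cl O (x.2.2 / 2) = y.2.1 ∧ vr O (x.2.2 / 2) = x.2.1 ∧ sg O (x.2.2 / 2) = x.1) ∨
  (x.1 = 6 ∧ x.2.1 < m ∧ x.2.2 = 0 ∧ y.1 = 4 ∧ y.2.1 = x.2.1 ∧ y.2.2 = 0)

instance (O : Occ) (m n : ℕ) (x y : Pt) : Decidable (Edge O m n x y) := by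
  unfold Edge; infer_instance

def verts (O : Occ) (m n : ℕ) : List Pt :=
  List.range 7 ×ˢ List.range (m + n + 1) ×ˢ List.range (2 * O.length + 1)

def edges (O : Occ) (m n : ℕ) : List (Pt × Pt) :=
  (verts O m n ×ˢ verts O m n).filter fun e => decide (Edge O m n e.1 e.2)

def XX (m : ℕ) : List Pt := (2, 0, 0) :: (List.range m).map fun j => (5, j, 0)

def YY (m n : ℕ) : List Pt := (0, n, 0) :: (List.range m).map fun j => (6, j, 0)

def code (x : Pt) : ℕ := Nat.pair x.1 (Nat.pair x.2.1 x.2.2)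

def build (O : Occ) (m n : ℕ) : Inst :=
  ((verts O m n).map code, (edges O m n).map (Prod.map code code), m + 1, (XX m).map code,
    (YY m n).map code)

def red (φ : CNF) : Inst := build (occ φ) φ.length (size φ + 1)

lemma edge_pt : PT (fun p : (Occ × ℕ × ℕ) × Pt × Pt =>
    decide (Edge p.1.1 p.1.2.1 p.1.2.2 p.2.1 p.2.2)) :=
  PP.decide (by unfold Edge; fun_prop)

@[fun_prop] lemma code_pt {α : Type} [Enc α] {f : α → Pt} (hf : PT f) :
    PT (fun a => code (f a)) := by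
  unfold code; fun_prop

lemma red_pt : PT red := by
  have h0 : PT (fun p : Occ × ℕ × ℕ => verts p.1 p.2.1 p.2.2) := by unfold verts; fun_prop
  have h1 : PT (fun p : Occ × ℕ × ℕ => edges p.1 p.2.1 p.2.2) :=
    PT.filter edge_pt (PT.product h0 h0)
  have h2 : PT (fun p : Occ × ℕ × ℕ => build p.1 p.2.1 p.2.2) := by
    unfold build XX YY Prod.map; fun_prop
  exact PT.comp (f := fun φ : CNF => (occ φ, φ.length, size φ + 1)) h2 (by fun_prop)

section
variable {O : Occ} {m n : ℕ}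

lemma mem_verts {x : Pt} :
    x ∈ verts O m n ↔ x.1 < 7 ∧ x.2.1 < m + n + 1 ∧ x.2.2 < 2 * O.length + 1 := by
  obtain ⟨g, s, t⟩ := x
  simp only [verts, List.mem_product, List.mem_range]

lemma mem_edges {x y : Pt} : (x, y) ∈ edges O m n ↔ Edge O m n x y := by
  simp only [edges, List.mem_filter, List.mem_product, mem_verts, decide_eq_true_eq,
    and_iff_right_iff_imp, Edge]
  omega

lemma mem_XX {x : Pt} : x ∈ XX m ↔ x.2.2 = 0 ∧ ((x.1 = 2 ∧ x.2.1 = 0) ∨ (x.1 = 5 ∧ x.2.1 < m)) := by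
  obtain ⟨g, s, t⟩ := x
  simp only [XX, List.mem_cons, List.mem_map, List.mem_range, Prod.mk.injEq]
  constructor
  · rintro (h | ⟨j, h⟩) <;> omega
  · rintro ⟨rfl, ⟨rfl, rfl⟩ | ⟨rfl, h⟩⟩ <;> simp [*]

lemma mem_YY {x : Pt} :
    x ∈ YY m n ↔ x.2.2 = 0 ∧ ((x.1 = 0 ∧ x.2.1 = n) ∨ (x.1 = 6 ∧ x.2.1 < m)) := by
  obtain ⟨g, s, t⟩ := x
  simp only [YY, List.mem_cons, List.mem_map, List.mem_range, Prod.mk.injEq]
  constructor
  · rintro (h | ⟨j, h⟩) <;> omega
  · rintro ⟨rfl, ⟨rfl, rfl⟩ | ⟨rfl, h⟩⟩ <;> simp [*]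

lemma code_inj : Function.Injective code := by
  rintro ⟨a, b, c⟩ ⟨a', b', c'⟩ h
  simpa [code] using h

lemma wf : WF (build O m n) := by
  refine ⟨(List.nodup_range.product (List.nodup_range.product List.nodup_range)).map code_inj,
    ?_, by simp [build], List.Nodup.map code_inj ?_, by simp [build, XX], ?_,
    List.Nodup.map code_inj ?_, by simp [build, YY], ?_⟩
  · intro e he
    obtain ⟨⟨x, y⟩, h, rfl⟩ := List.mem_map.1 he
    have := List.mem_product.1 (List.mem_of_mem_filter h)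
    exact ⟨List.mem_map_of_mem this.1, List.mem_map_of_mem this.2⟩
  · exact List.nodup_cons.2 ⟨by simp, List.nodup_range.map fun a b h => by simpa using h⟩
  · intro e he
    obtain ⟨x, h, rfl⟩ := List.mem_map.1 he
    exact List.mem_map_of_mem (by rw [mem_XX] at h; rw [mem_verts]; omega)
  · exact List.nodup_cons.2 ⟨by simp, List.nodup_range.map fun a b h => by simpa using h⟩
  · intro e he
    obtain ⟨x, h, rfl⟩ := List.mem_map.1 he
    exact List.mem_map_of_mem (by rw [mem_YY] at h; rw [mem_verts]; omega)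

lemma divmod {D j q : ℕ} (h : q < D) : (D * j + q) / D = j ∧ (D * j + q) % D = q := by
  constructor
  · rw [Nat.mul_add_div (by omega), Nat.div_eq_of_lt h]; rfl
  · rw [Nat.mul_add_mod, Nat.mod_eq_of_lt h]

/-- the long path -/
def lp (τ : ℕ → ℕ) (n j q : ℕ) : Pt :=
  if q = 0 then (2, j, 0) else if j = n then (0, n, 0) else (1 - τ j, j, q - 1)

/-- the path of clause `j` -/
def cp (O : Occ) (j s i : ℕ) : Pt :=
  if i = 0 then (5, j, 0) else if i = 1 then (3, j, 0) else if i = 2 then (sg O s, vr O s, 2 * s)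
  else if i = 3 then (sg O s, vr O s, 2 * s + 1) else if i = 4 then (4, j, 0) else (6, j, 0)

lemma fwd (hn : 1 ≤ n) (τ σ : ℕ → ℕ) (hτ : ∀ v, τ v ≤ 1) (hv : ∀ s < O.length, vr O s < n)
    (h : ∀ j < m, σ j < O.length ∧ cl O (σ j) = j ∧ sg O (σ j) = τ (vr O (σ j))) :
    Full (edges O m n) (m + 1) (XX m) (YY m n) := by
  obtain ⟨D, hD⟩ : ∃ D, D = 2 * O.length + 2 := ⟨_, rfl⟩
  have hdec : ∀ i ≤ D * n + 1, ∃ j q, q < D ∧ i = D * j + q ∧ (j < n ∨ (j = n ∧ q ≤ 1)) := by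
    intro i hi
    refine ⟨i / D, i % D, Nat.mod_lt _ (by omega), (Nat.div_add_mod _ _).symm, ?_⟩
    have h1 := Nat.div_add_mod i D
    rcases lt_trichotomy (i / D) n with h | h | h
    · exact Or.inl h
    · exact Or.inr ⟨h, by rw [h] at h1; omega⟩
    · have : D * (n + 1) ≤ D * (i / D) := Nat.mul_le_mul_left _ h
      rw [mul_add] at this; omega
  have h0 : 0 < D := by omega
  have h1 : 1 < D := by omega
  refine full_intro (fun p => if p = m then D * n + 1 else 5)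
    (fun p i => if p = m then lp τ n (i / D) (i % D) else cp O p (σ p) i) (fun p hp => ?_) ?_
  · by_cases e : p = m
    · simp only [e, if_true, mem_XX, mem_YY, mem_edges]
      refine ⟨by rw [hD, show (2 * O.length + 2) * n = 2 * ((O.length + 1) * n) by ring]; omega,
        by simp [lp], by simp [(divmod h1).1, (divmod h1).2, lp], fun i hi => ?_, fun i hi hi' => ?_⟩
      · obtain ⟨j, q, hq, rfl, a⟩ := hdec i hi.le
        have := hτ j
        have b : j = n → q = 0 := by rintro rfl; omega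
        by_cases hq' : q + 1 < D
        · simp only [add_assoc, (divmod hq).1, (divmod hq).2, (divmod hq').1, (divmod hq').2, lp]
          have c : 1 - τ j = 0 ∨ 1 - τ j = 1 := by omega
          clear hi
          rcases c with c | c <;> rw [c] <;> split_ifs <;> simp [Edge] <;> first | omega | contradiction
        · rw [show D * j + q + 1 = D * (j + 1) + 0 by rw [mul_add]; omega]
          simp only [(divmod hq).1, (divmod hq).2, (divmod h0).1, (divmod h0).2, lp]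
          have c : 1 - τ j = 0 ∨ 1 - τ j = 1 := by omega
          clear hi
          rcases c with c | c <;> rw [c] <;> split_ifs <;> simp [Edge] <;> omega
      · obtain ⟨j, q, hq, rfl, a⟩ := hdec i hi'.le
        have := hτ j
        have b : j = n → q = 0 := by rintro rfl; omega
        have c : j = 0 → q ≠ 0 := by rintro rfl; omega
        simp only [(divmod hq).1, (divmod hq).2, lp]
        split_ifs <;> simp <;> omega
    · obtain ⟨a1, a2, a3⟩ := h p (by omega)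
      have a4 := hv _ a1
      have a5 := sg_le O (σ p)
      simp only [e, if_false, mem_XX, mem_YY, mem_edges]
      refine ⟨trivial, by simp [cp]; omega, by simp [cp]; omega, fun i hi => ?_, fun i hi hi' => ?_⟩
      · interval_cases i <;> simp [cp, Edge, show (2 * σ p + 1) / 2 = σ p by omega] <;> omega
      · interval_cases i <;> simp [cp] <;> omega
  · have key : ∀ p < m, ∀ i ≤ D * n + 1, ∀ i', lp τ n (i / D) (i % D) ≠ cp O p (σ p) i' := by
      intro p hp i hi i' e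
      obtain ⟨j, q, hq, rfl, a⟩ := hdec i hi
      obtain ⟨a1, a2, a3⟩ := h p hp
      have a4 := hv _ a1
      have a5 := hτ j
      have a6 : vr O (σ p) = j → τ (vr O (σ p)) = τ j := fun h => by rw [h]
      simp only [(divmod hq).1, (divmod hq).2, lp, cp] at e
      split_ifs at e <;> simp only [Prod.mk.injEq] at e <;> omega
    intro p hp p' hp' i hi i' hi' e
    by_cases b : p = m <;> by_cases b' : p' = m <;> simp only [b, b', if_true, if_false] at hi hi' e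
    · obtain ⟨j, q, hq, rfl, a⟩ := hdec i hi
      obtain ⟨j', q', hq', rfl, a'⟩ := hdec i' hi'
      simp only [(divmod hq).1, (divmod hq).2, (divmod hq').1, (divmod hq').2, lp] at e
      have a5 := hτ j
      have a6 := hτ j'
      have : j = j' ∧ q = q' := by
        split_ifs at e <;> simp only [Prod.mk.injEq] at e <;> omega
      simp [b, b', this.1, this.2]
    · exact absurd e (key _ (by omega) _ hi _)
    · exact absurd e.symm (key _ (by omega) _ hi' _)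
    · obtain ⟨a1, a2, -⟩ := h p (by omega)
      obtain ⟨a3, a4, -⟩ := h p' (by omega)
      have a5 := sg_le O (σ p)
      have a6 := sg_le O (σ p')
      have a7 : σ p = σ p' → p = p' := fun h => by rw [← a2, ← a4, h]
      simp only [cp] at e
      split_ifs at e <;> simp only [Prod.mk.injEq] at e <;> omega

def col (x : Pt) : Prop := x.1 = 2 ∨ x.1 = 3 ∨ x.1 = 6 ∨ (x.1 ≤ 1 ∧ x.2.2 % 2 = 1)

def low (u s t : ℕ) (x : Pt) : Prop := (x.1 = 2 ∧ x.2.1 ≤ u) ∨ (x.1 ≤ 1 ∧ x.2.1 < u) ∨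
  (x.1 = 0 ∧ x.2.1 = u ∧ x.2.2 ≤ 2 * s) ∨ (x.1 = 1 ∧ x.2.1 = u ∧ x.2.2 ≤ 2 * t)

lemma step {x y : Pt} {u s t : ℕ} (hs : s < O.length) (ht : t < O.length)
    (h : Edge O m n x y ∨ Edge O m n y x) (h1 : low u s t x) (h2 : y ≠ (0, u, 2 * s + 1))
    (h3 : y ≠ (1, u, 2 * t + 1)) (h4 : ∀ j < m, y ≠ (3, j, 0) ∧ y ≠ (4, j, 0)) : low u s t y := by
  obtain ⟨g, a, b⟩ := x
  obtain ⟨g', a', b'⟩ := y
  have h5 := h4 a'
  simp only [Edge, ne_eq, Prod.mk.injEq, true_and, low] at h h1 h2 h3 h5 ⊢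
  clear h4
  rcases h with (h | h | h | h | h | h | h) | (h | h | h | h | h | h | h) <;>
    rcases h1 with h1 | h1 | h1 | h1 <;> omega

lemma flip {x y : Pt} (h : Edge O m n x y ∨ Edge O m n y x) : col y ↔ ¬ col x := by
  obtain ⟨g, a, b⟩ := x
  obtain ⟨g', a', b'⟩ := y
  simp only [Edge, col] at h ⊢
  rcases h with (h | h | h | h | h | h | h) | (h | h | h | h | h | h | h) <;> omega

lemma bwd (hn : 1 ≤ n) (h : Internal (edges O m n) (m + 1) (XX m) (YY m n)) :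
    ∃ T : ℕ → Prop, (∀ j < m, ∃ s < O.length, T s ∧ cl O s = j) ∧
      ∀ s < O.length, ∀ t < O.length, T s → T t → vr O s = vr O t → vr O s < n →
        sg O s = sg O t := by
  obtain ⟨ℓ, v, e, h1, h2⟩ := h
  have odd : ∀ p < m + 1, ℓ p % 2 = 1 := fun p hp => Nat.odd_iff.1 (h1 p hp).1
  have adj : ∀ p < m + 1, ∀ i < ℓ p, Edge O m n (v p i) (v p (i + 1)) ∨
      Edge O m n (v p (i + 1)) (v p i) := fun p hp i hi =>
    ((h1 p hp).2.2.1 i hi).imp (fun h => mem_edges.1 (List.mem_of_getElem? h))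
      (fun h => mem_edges.1 (List.mem_of_getElem? h))
  have st : ∀ p < m + 1, v p 0 ∈ XX m := fun p hp => (h1 p hp).2.2.2.1
  have en : ∀ p < m + 1, v p (ℓ p) ∈ YY m n := fun p hp => (h1 p hp).2.2.2.2.1
  have inj : ∀ p < m + 1, ∀ i ≤ ℓ p, ∀ j ≤ ℓ p, v p i = v p j → i = j := fun p hp => (h1 p hp).2.1
  have dis : ∀ p < m + 1, ∀ q < m + 1, ∀ i j, 0 < i → i < ℓ p → 0 < j → j < ℓ q →
      v p i = v q j → p = q := fun p hp q hq i j a b c d e => by
    by_contra hne; exact (h2 p hp q hq hne).2 i j a b c d e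
  clear h1 h2
  have par : ∀ p < m + 1, ∀ i ≤ ℓ p, (col (v p i) ↔ (col (v p 0) ↔ i % 2 = 0)) := by
    intro p hp i hi
    induction i with
    | zero => simp
    | succ i ih =>
      rw [flip (adj p hp i hi), ih (by omega)]
      rcases Nat.mod_two_eq_zero_or_one i with h | h <;> simp [h, Nat.add_mod]
  have link : ∀ p < m + 1, (v p 0 = (2, 0, 0) ↔ v p (ℓ p) = (0, n, 0)) := by
    intro p hp
    have a := par p hp _ le_rfl
    have b := st p hp
    have c := en p hp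
    simp only [odd p hp, mem_XX, mem_YY, col, Prod.ext_iff, one_ne_zero, iff_false] at *
    omega
  have fst : ∀ p < m + 1, ∀ j, v p 0 = (5, j, 0) → 1 < ℓ p ∧ v p 1 = (3, j, 0) := by
    intro p hp j h
    have a := adj p hp 0 (by have := odd p hp; omega)
    have b : v p 1 = (3, j, 0) := by
      simp only [h, Edge, Prod.ext_iff, zero_add] at a ⊢; omega
    refine ⟨?_, b⟩
    by_contra hh
    have c := en p hp
    rw [show ℓ p = 1 by have := odd p hp; omega, b] at c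
    simp [mem_YY] at c
  have lst : ∀ p < m + 1, 1 < ℓ p ∧ v p (ℓ p - 1) =
      if (v p (ℓ p)).1 = 0 then (2, n, 0) else (4, (v p (ℓ p)).2.1, 0) := by
    intro p hp
    have o := odd p hp
    have a := adj p hp (ℓ p - 1) (by omega)
    have c := en p hp
    rw [show ℓ p - 1 + 1 = ℓ p by omega] at a
    have b : v p (ℓ p - 1) = if (v p (ℓ p)).1 = 0 then (2, n, 0) else (4, (v p (ℓ p)).2.1, 0) := by
      split_ifs <;> simp only [Edge, Prod.ext_iff, mem_YY] at a c ⊢ <;> omega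
    refine ⟨?_, b⟩
    by_contra hh
    have d := st p hp
    rw [show ℓ p - 1 = 0 by omega] at b
    rw [b] at d
    split_ifs at d <;> simp [mem_XX] at d
    omega
  have einj : ∀ p < m + 1, ∀ q < m + 1, v p (ℓ p) = v q (ℓ q) → p = q := by
    intro p hp q hq e
    obtain ⟨a1, a2⟩ := lst p hp
    obtain ⟨b1, b2⟩ := lst q hq
    exact dis p hp q hq (ℓ p - 1) (ℓ q - 1) (by omega) (by omega) (by omega) (by omega)
      (by rw [a2, b2, e])
  have sinj : ∀ p < m + 1, ∀ q < m + 1, v p 0 = v q 0 → p = q := by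
    intro p hp q hq e
    by_cases h : v p 0 = (2, 0, 0)
    · exact einj p hp q hq (by rw [(link p hp).1 h, (link q hq).1 (e ▸ h)])
    · have a := st p hp
      have b : v p 0 = (5, (v p 0).2.1, 0) := by
        simp only [mem_XX, Prod.ext_iff, true_and] at a h ⊢; omega
      obtain ⟨a1, a2⟩ := fst p hp _ b
      obtain ⟨b1, b2⟩ := fst q hq _ (e ▸ b)
      exact dis p hp q hq 1 1 (by omega) a1 (by omega) b1 (by rw [a2, b2, e])
  have ssur := surj (X := XX m) (by simp [XX]) _ st sinj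
  have esur := surj (X := YY m n) (by simp [YY]) _ en einj
  obtain ⟨p, hp, e0⟩ := ssur (2, 0, 0) (by simp [XX])
  have e1 := (link p hp).1 e0
  have other : ∀ q < m + 1, q ≠ p → ∀ j, 0 < j → j < ℓ q → v q j ≠ (2, 0, 0) →
      v q j ≠ (0, n, 0) → ∀ i ≤ ℓ p, v p i ≠ v q j := by
    intro q hq hne j a b c d i hi e
    refine hne (dis p hp q hq i j ?_ ?_ a b e).symm
    · by_contra hh; exact c (by rw [← e, show i = 0 by omega, e0])
    · by_contra hh; exact d (by rw [← e, show i = ℓ p by omega, e1])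
  have n3 : ∀ j < m, ∀ i ≤ ℓ p, v p i ≠ (3, j, 0) := by
    intro j hj
    obtain ⟨q, hq, e⟩ := ssur (5, j, 0) (by simp [mem_XX, hj])
    obtain ⟨a1, a2⟩ := fst q hq j e
    exact a2 ▸ other q hq (by rintro rfl; simp [e0] at e) 1 (by omega) a1 (by simp [a2])
      (by simp [a2])
  have n4 : ∀ j < m, (∀ i ≤ ℓ p, v p i ≠ (4, j, 0)) ∧ ∃ s < O.length, cl O s = j ∧
      ∀ i ≤ ℓ p, v p i ≠ (sg O s, vr O s, 2 * s + 1) := by
    intro j hj
    obtain ⟨q, hq, e⟩ := esur (6, j, 0) (by simp [mem_YY, hj])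
    obtain ⟨a1, a2⟩ := lst q hq
    have hne : q ≠ p := by rintro rfl; simp [e1] at e
    simp only [e, Nat.reduceEqDiff, if_false] at a2
    refine ⟨a2 ▸ other q hq hne (ℓ q - 1) (by omega) (by omega) (by simp [a2]) (by simp [a2]), ?_⟩
    have o := odd q hq
    have a := adj q hq (ℓ q - 2) (by omega)
    rw [show ℓ q - 2 + 1 = ℓ q - 1 by omega, a2] at a
    have b : v q (ℓ q - 2) ≠ (6, j, 0) := fun h => by
      have := inj q hq _ (by omega) _ le_rfl (h.trans e.symm); omega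
    obtain ⟨s, hs⟩ : ∃ s, s = (v q (ℓ q - 2)).2.2 / 2 := ⟨_, rfl⟩
    have c : s < O.length ∧ cl O s = j ∧ v q (ℓ q - 2) = (sg O s, vr O s, 2 * s + 1) := by
      simp only [Edge, Prod.ext_iff, ← hs, ne_eq] at a b ⊢; omega
    exact ⟨s, c.1, c.2.1, c.2.2 ▸ other q hq hne (ℓ q - 2) (by omega) (by omega) (by simp [c.2.2])
      (by simp [c.2.2])⟩
  refine ⟨fun s => ∀ i ≤ ℓ p, v p i ≠ (sg O s, vr O s, 2 * s + 1), fun j hj => ?_, ?_⟩
  · obtain ⟨s, a, b, c⟩ := (n4 j hj).2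
    exact ⟨s, a, c, b⟩
  have key : ∀ u < n, ∀ s < O.length, ∀ t < O.length, (∀ i ≤ ℓ p, v p i ≠ (0, u, 2 * s + 1)) →
      (∀ i ≤ ℓ p, v p i ≠ (1, u, 2 * t + 1)) → False := by
    intro u hu s hs t ht a b
    have : ∀ i ≤ ℓ p, low u s t (v p i) := by
      intro i hi
      induction i with
      | zero => simp [e0, low]
      | succ i ih =>
        exact step hs ht (adj p hp i hi) (ih (by omega)) (a _ hi) (b _ hi)
          fun j hj => ⟨n3 j hj _ hi, (n4 j hj).1 _ hi⟩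
    have := this _ le_rfl
    simp [e1, low] at this; omega
  intro s hs t ht a b e hu
  by_contra hne
  have a1 := sg_le O s
  have a2 := sg_le O t
  rcases (by omega : (sg O s = 0 ∧ sg O t = 1) ∨ (sg O s = 1 ∧ sg O t = 0)) with c | c
  · exact key _ hu s hs t ht (by rwa [c.1] at a) (by rwa [c.2, ← e] at b)
  · exact key _ hu t ht s hs (by rwa [c.2, ← e] at b) (by rwa [c.1] at a)

end

lemma red_correct (φ : CNF) : (Sat φ → OddPathsFull (red φ)) ∧ (OddPaths (red φ) → Sat φ) := by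
  constructor
  · intro h
    obtain ⟨τ, σ, h1, h2⟩ := h.choice
    exact ⟨wf, (fwd (by omega) τ σ h1 (fun s hs => (vr_lt hs).trans (by omega)) h2).map code_inj⟩
  · rintro ⟨-, h⟩
    let dec : ℕ → Pt := fun a => (a.unpair.1, a.unpair.2.unpair)
    have h1 : Function.Injective dec := by
      intro a b h
      simp only [dec, Prod.mk.injEq] at h
      rw [← Nat.pair_unpair a, ← Nat.pair_unpair b, h.1, Nat.pairEquiv.symm.injective h.2]
    have h2 : dec ∘ code = id := by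
      ext1 ⟨a, b, c⟩; simp [dec, code]
    have := h.map h1
    simp only [red, build, List.map_map, Prod.map_comp_map, h2, Prod.map_id, List.map_id] at this
    obtain ⟨T, a, b⟩ := bwd (by omega) this
    exact sat_of_set T a fun s hs t ht c d e => b s hs t ht c d e ((vr_lt hs).trans (by omega))

lemma hard1 : Hard OddPaths := hard_sat.red red_pt fun φ =>
  ⟨fun h => let ⟨a, b⟩ := (red_correct φ).1 h; ⟨a, b.internal⟩, (red_correct φ).2⟩

lemma hard2 : Hard OddPathsFull := hard_sat.red red_pt fun φ =>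
  ⟨(red_correct φ).1, fun h => (red_correct φ).2 ⟨h.1, h.2.internal⟩⟩

theorem result :
    (NPHard (Lang OddPaths) ∧ (InCoNP (Lang OddPaths) → ∀ L, InNP L ↔ InCoNP L)) ∧
    (NPHard (Lang OddPathsFull) ∧ (InCoNP (Lang OddPathsFull) → ∀ L, InNP L ↔ InCoNP L)) :=
  ⟨⟨hard1.npHard, fun h => np_eq_conp (hard1.np_sub_conp h)⟩,
    ⟨hard2.npHard, fun h => np_eq_conp (hard2.np_sub_conp h)⟩⟩

end Pool.Agent.Results.MP_636301_lc.NPHard
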